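import Pool.Agent.H590Z.HC.Defs

set_option autoImplicit false

open MeasureTheory Filter Topology

namespace Pool.Agent.H590Z.HC

namespace H435

lemma inner_ex (n : ℤ) (f : H) :
    inner ℂ (ex (n : ℂ)) f =
      ∫ t in (-Real.pi)..Real.pi, Complex.exp (-(Complex.I * n * t)) * f t := by
  rw [intervalIntegral.integral_of_le (by linarith [Real.pi_pos]), L2.inner_def]
  apply integral_congr_ae
  filter_upwards [(memLp_exp (n : ℂ)).coeFn_toLp] with t ht
  unfold ex
  rw [ht, RCLike.inner_apply', ← Complex.exp_conj]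
  simp

lemma inner_ex_ex (n : ℤ) (l : ℂ) :
    inner ℂ (ex (n : ℂ)) (ex l) =
      ∫ t in (-Real.pi)..Real.pi, Complex.exp (Complex.I * (l - n) * t) := by
  rw [inner_ex, intervalIntegral.integral_of_le (by linarith [Real.pi_pos]),
    intervalIntegral.integral_of_le (by linarith [Real.pi_pos])]
  apply integral_congr_ae
  filter_upwards [(memLp_exp l).coeFn_toLp] with t ht
  unfold ex
  rw [ht, ← Complex.exp_add]
  congr 1
  ring

lemma inner_ex_ne (n : ℤ) (l : ℂ) (h : l ≠ n) :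
    inner ℂ (ex (n : ℂ)) (ex l) = 2 * (-1) ^ n * Complex.sin (Real.pi * l) / (l - n) := by
  have h1 : l - n ≠ 0 := sub_ne_zero.mpr h
  have h2 : Complex.I * (l - n) ≠ 0 := mul_ne_zero Complex.I_ne_zero h1
  rw [inner_ex_ex, integral_exp_mul_complex h2]
  have h3 : Complex.sin (Real.pi * (l - n)) = (-1) ^ n * Complex.sin (Real.pi * l) := by
    have := Complex.sin_antiperiodic.sub_int_mul_eq (x := Real.pi * l) n
    rw [mul_sub, mul_comm (Real.pi : ℂ) (n : ℂ), this]
    rw [Int.cast_negOnePow]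
  have h4 : Complex.exp (Complex.I * (l - n) * (Real.pi : ℝ)) -
      Complex.exp (Complex.I * (l - n) * ((-Real.pi : ℝ) : ℂ)) =
      2 * Complex.I * Complex.sin (Real.pi * (l - n)) := by
    rw [Complex.sin]
    have e1 : Complex.I * (l - n) * (Real.pi : ℝ) = (Real.pi * (l - n)) * Complex.I := by ring
    have e2 : Complex.I * (l - n) * ((-Real.pi : ℝ) : ℂ) = -(Real.pi * (l - n)) * Complex.I := by
      push_cast; ring
    rw [e1, e2]
    have : Complex.I * Complex.I = -1 := Complex.I_mul_I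
    linear_combination (Complex.exp (-(Real.pi * (l - n)) * Complex.I) -
      Complex.exp ((Real.pi * (l - n)) * Complex.I)) * (-this)
  rw [h4, h3]
  field_simp

lemma inner_ex_self (n : ℤ) : inner ℂ (ex (n : ℂ)) (ex (n : ℂ)) = 2 * Real.pi := by
  rw [inner_ex_ex]
  simp
  ring

/-- The normalising constant. -/
noncomputable def cc (n : ℤ) : ℂ := (-1) ^ n / (Real.sqrt (2 * Real.pi) : ℝ)

lemma sq_pos : 0 < Real.sqrt (2 * Real.pi) := Real.sqrt_pos.mpr (by linarith [Real.pi_pos])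

lemma sq_ne : ((Real.sqrt (2 * Real.pi) : ℝ) : ℂ) ≠ 0 := by exact_mod_cast sq_pos.ne'

lemma sq_mul : ((Real.sqrt (2 * Real.pi) : ℝ) : ℂ) * (Real.sqrt (2 * Real.pi) : ℝ) = 2 * Real.pi := by
  rw [← Complex.ofReal_mul, Real.mul_self_sqrt (by linarith [Real.pi_pos])]
  push_cast; ring

lemma neg_one_sq (n : ℤ) : ((-1 : ℂ) ^ n) * (-1) ^ n = 1 := by
  rw [← mul_zpow]; simp

lemma cc_ne (n : ℤ) : cc n ≠ 0 :=
  div_ne_zero (zpow_ne_zero _ (by norm_num)) sq_ne

lemma conj_cc (n : ℤ) : (starRingEnd ℂ) (cc n) = cc n := by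
  simp [cc]

/-- The basis vectors. -/
noncomputable def bb (n : ℤ) : H := cc n • ex (n : ℂ)

lemma bb_orth : Orthonormal ℂ bb := by
  classical
  rw [orthonormal_iff_ite]
  intro i j
  unfold bb
  rw [inner_smul_left, inner_smul_right, conj_cc]
  split_ifs with h
  · subst h
    rw [inner_ex_self]
    unfold cc
    have h1 := sq_mul
    have h2 := neg_one_sq i
    have h3 := sq_ne
    rw [← h1]
    field_simp
    linear_combination h2
  · have h' : (j : ℂ) ≠ (i : ℂ) := by exact_mod_cast (Ne.symm h)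
    rw [inner_ex_ne i j h']
    have : Complex.sin (Real.pi * (j : ℂ)) = 0 := by
      rw [mul_comm]; exact Complex.sin_int_mul_pi j
    simp [this]

lemma eq_zero_of_inner (f : H) (hf : ∀ n : ℤ, inner ℂ (ex (n : ℂ)) f = 0) : f = 0 := by
  have hab : -Real.pi < Real.pi := by linarith [Real.pi_pos]
  have hP := hasSum_sq_fourierCoeffOn hab (Lp.memLp f)
  have h0 : ∀ n : ℤ, fourierCoeffOn hab f n = 0 := by
    intro n
    rw [fourierCoeffOn_eq_integral]
    have := hf n
    rw [inner_ex] at this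
    have e : ∀ x : ℝ, (fourier (-n) (x : AddCircle (Real.pi - -Real.pi))) • f x =
        Complex.exp (-(Complex.I * n * x)) * f x := by
      intro x
      rw [fourier_coe_apply, smul_eq_mul]
      congr 2
      have : (Real.pi : ℂ) ≠ 0 := by exact_mod_cast Real.pi_pos.ne'
      push_cast
      field_simp
      ring
    simp_rw [e, this, smul_zero]
  simp_rw [h0] at hP
  have h1 : ((Real.pi - -Real.pi)⁻¹ • ∫ x in (-Real.pi)..Real.pi, ‖f x‖ ^ 2) = 0 := by
    have h2 : HasSum (fun _ : ℤ => ‖(0 : ℂ)‖ ^ 2) 0 := by simp [hasSum_zero]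
    exact hP.unique h2
  have h3 : ∫ x in (-Real.pi)..Real.pi, ‖f x‖ ^ 2 = 0 := by
    rcases smul_eq_zero.mp h1 with h | h
    · exact absurd h (inv_ne_zero (by linarith [Real.pi_pos]))
    · exact h
  rw [intervalIntegral.integral_of_le hab.le] at h3
  have h4 : inner ℂ f f = 0 := by
    rw [L2.inner_def]
    simp_rw [inner_self_eq_norm_sq_to_K]
    have : ∀ x : ℝ, ((‖f x‖ : ℂ)) ^ 2 = ((‖f x‖ ^ 2 : ℝ) : ℂ) := by intro x; push_cast; rfl
    have h5 : ∫ x in Set.Ioc (-Real.pi) Real.pi, ((‖f x‖ ^ 2 : ℝ) : ℂ) = 0 := by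
      rw [integral_complex_ofReal, h3]; simp
    simpa using h5
  exact inner_self_eq_zero.mp h4

lemma bb_total : (Submodule.span ℂ (Set.range bb))ᗮ = ⊥ := by
  rw [Submodule.eq_bot_iff]
  intro f hf
  apply eq_zero_of_inner
  intro n
  have := (Submodule.mem_orthogonal _ _).mp hf (bb n) (Submodule.subset_span ⟨n, rfl⟩)
  unfold bb at this
  rw [inner_smul_left, conj_cc] at this
  exact (mul_eq_zero.mp this).resolve_left (cc_ne n)

end H435

open H435 in
theorem exists_basis : ∃ b : HilbertBasis ℤ ℂ H,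
    (∀ a : ℤ, ∃ c : ℂ, c ≠ 0 ∧ ex (a : ℂ) = c • b a) ∧
    ∀ l : ℂ, (∀ n : ℤ, l ≠ (n : ℂ)) → ∃ γ : ℂ, γ ≠ 0 ∧ ∀ n : ℤ, inner ℂ (b n) (ex l) = γ / (l - n) := by
  refine ⟨HilbertBasis.mkOfOrthogonalEqBot bb_orth bb_total, ?_, ?_⟩
  · intro a
    refine ⟨(cc a)⁻¹, inv_ne_zero (cc_ne a), ?_⟩
    rw [HilbertBasis.coe_mkOfOrthogonalEqBot]
    unfold bb
    rw [smul_smul, inv_mul_cancel₀ (cc_ne a), one_smul]
  · intro l hl
    refine ⟨2 * Complex.sin (Real.pi * l) / (Real.sqrt (2 * Real.pi) : ℝ), ?_, ?_⟩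
    · refine div_ne_zero (mul_ne_zero two_ne_zero ?_) sq_ne
      intro h
      obtain ⟨k, hk⟩ := Complex.sin_eq_zero_iff.mp h
      apply hl k
      have : (Real.pi : ℂ) ≠ 0 := by exact_mod_cast Real.pi_pos.ne'
      rw [mul_comm] at hk
      exact mul_right_cancel₀ this hk
    · intro n
      rw [HilbertBasis.coe_mkOfOrthogonalEqBot]
      unfold bb
      rw [inner_smul_left, conj_cc, inner_ex_ne n l (hl n)]
      unfold cc
      have h1 : l - n ≠ 0 := sub_ne_zero.mpr (hl n)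
      have h2 := neg_one_sq n
      have h3 := sq_ne
      field_simp
      linear_combination (Complex.sin (Real.pi * l)) * h2

end Pool.Agent.H590Z.HC
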